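import Pool.Agent.W_MP_93b5ed_al.Defs
import Pool.Agent.W_MP_93b5ed_al.Final

/-!
# Automorphism groups of Hermitian and skew-Hermitian octonion matrix algebras

Let `K` be a field of characteristic different from `2` and `3` and let `𝕆 = Oct K` be the split
octonions.

* For every `n ≥ 1` the automorphism group of `(Sym⁻(M_n(𝕆)), [·,·])` is `Aut(𝕆) × PGO_n(K)`,
  the pair `(g, [P])` acting by `X ↦ P g(X) P⁻¹`; it is isomorphic to `Aut(𝕆) × SO_n(K)` if and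
  only if `n` is odd.
* For every `n ≥ 4` the automorphism group of `(Sym⁺(M_n(𝕆)), ∘)` is `Aut(𝕆) × PGO_n(K)`,
  acting in the same way; for `n ≥ 1` it is isomorphic to `Aut(𝕆) × SO_n(K)` if and only if
  `n` is odd and `n ≥ 4`.
-/

namespace Pool.Agent.Results.MP_93b5ed_al.AutGroups

open Pool.Agent.W_MP_93b5ed_al

theorem result (K : Type*) [Field K] (h2 : (2 : K) ≠ 0) (h3 : (3 : K) ≠ 0) (n : ℕ) (hn : 1 ≤ n) :
    (SkewStd n K ∧ (Nonempty (SkewAut n K ≃* G2 K × SO n K) ↔ Odd n)) ∧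
    ((4 ≤ n → HermStd n K) ∧ (Nonempty (HermAut n K ≃* G2 K × SO n K) ↔ Odd n ∧ 4 ≤ n)) :=
  ⟨⟨skewStd h2 h3 hn, skew_iff h2 h3 hn⟩, ⟨fun h4 => hermStd h2 h4, herm_iff h2 h3 hn⟩⟩

end Pool.Agent.Results.MP_93b5ed_al.AutGroups
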